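import Pool.Agent.H882.KfFam

/-!
# MP_28d749_ag: Pink's conjecture for subvarieties near a *given* fibre of a product of elliptic schemes

**The abelian schemes.** For `i = 1, …, n` let `E_i : y² = x³ + A_i (τ) x + B_i (τ)` be an elliptic scheme
over the open subset `4 A_i³ + 27 B_i² ≠ 0` of the affine line, with algebraic coefficients. (Every
elliptic scheme over a nonempty open subset of the affine line over a number field is of this form,
after shrinking the base.) Let `𝒜 = E_1 × ⋯ × E_n`, an abelian scheme of relative dimension `n` over an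
open subset `S` of the affine space with the coordinates `τ_1, …, τ_n`. By restriction one has the
abelian schemes over the subvarieties of `S`. A point of `𝒜` is given by `τ ∈ S` and points `P_i` of the
curves `E_i (τ_i)`; outside of the zero sections it is determined, up to the signs of the `P_i`, by the
`2 n` coordinates `τ_i` and `1 / x (P_i)`.

**The subvarieties.** Let `F ⊂ ℂ` be a field and `V_λ ⊂ ℂ^(2n)` a family of sets of dimension `m`, over `F`,
with parameters `λ ∈ ℂ^q`, in general position at infinity (`Family`, `Family.member`): for every set `J`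
of `m + 1` of the `2 n` coordinates there is an equation

  `lead_J ∏_(i ∈ J) u_i ^ e_(J,i) + rest_J (λ, u) = 0`,   `0 ≠ lead_J ∈ F`,

in which all monomials in `u` of `rest_J` are proper divisors of the first one. For example `V` can be
`λ V'` for any subvariety `V'` over `F` of dimension `m`, whose closure in `(ℙ^1)^(2n)` contains no point
with more than `m` infinite coordinates (this is true for all `V'` after a general projective linear
transformation in each coordinate), and `λ` an algebraic integer; here `F = ℂ` is allowed. For a point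
`s ∈ S` and `t ∈ ℕ`, let `X = X_(t,λ)` be the set of all points of `𝒜` for which

  `((τ_1 - s_1) / t, …, (τ_n - s_n) / t; 1 / (t x (P_1)), …, 1 / (t x (P_n))) ∈ V_λ`,

a closed subset of `𝒜` minus the zero sections, of the dimension of `V_λ`.

**Theorem** (`result`). (I) Every residue class `c₀ mod N` of `ℤ^n` contains a residue class `c' mod M`, all
elements `c` of which have coordinates `c_i ≠ 0, 1728` and satisfy the Galois condition `Separated` below.

(II) Let `c ∈ ℂ^n` be a point with algebraic coordinates `c_i ≠ 0, 1728` which satisfies `Separated`. There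
are a set `P` of prime numbers, such that the sum of the reciprocals of its elements is divergent, and
a set `N ⊂ ℕ` of density zero with the following properties. Let `E_1, …, E_n` be *any* elliptic schemes
as above, let `s ∈ S` be *any* point with algebraic coordinates such that the fibres `E_i (s_i)` have the
`j`-invariants `c_i`, let `F` be *any* subfield of `ℂ`, and `V` *any* family over `F` as above, of any
dimension `m` and with any number of parameters.
(A) There is a number `B₀` such that for all `t` which are divisible by an element `p > B₀` of `P`, and for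
all algebraic integers `λ_i`, all intersections of `X_(t,λ)` with algebraic subgroups of the fibres of `𝒜`
are typical: for all `ρ` the intersection of `X` with the union `𝒜^[≥ρ]` of all algebraic subgroups of
codimension at least `ρ` of all fibres is empty or of dimension at most `m - ρ`; in particular
`X ∩ 𝒜^[>m]` is empty.
(B) There is a number `T` such that the same is true for all `t ≥ T`, `t ∉ N`.

So for these `t` Q1 is true for the closures `𝒳` in `𝒜` of the irreducible components of dimension `m`
of `X` (over number fields, if `F` and the coordinates are algebraic): `𝒳 ∩ 𝒜^[>m]` is contained in the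
zero sections `P_i = 0`, `i ≤ n`, so it is not dense in `𝒳` (and by the case `ρ = 1` the generic point of
`𝒳` is in no strict algebraic subgroup of its fibre). The base and the fibre coordinates are treated in
the same way: the theorem contains the statement for multisections over subvarieties of `S` of all
dimensions, and for families of curves, surfaces, … in the fibres. For `t → 0` (`p`-adically) `X_(t,λ)`
degenerates to the fibre `𝒜_s`, and the points `P_i` to the origin, so to a very special situation.

**Algebraic subgroups.** Let `(P_i)` be contained in an algebraic subgroup `H` of codimension at least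
`ρ` of the product `E_1 × ⋯ × E_n` of elliptic curves over `ℂ`. Up to finite groups `H` is the product of
algebraic subgroups `H_C` of the products over the isogeny classes `C`. The codimension of `H_C` is at
most `|C|`, and `|C| - 1` if one of the `P_i`, `i ∈ C`, has infinite order. So if `r` is the number of the
isogeny classes for which one of the `P_i` has infinite order then `r + ρ ≤ n` (`Dependent`; the classes
of the definition are these `r` isogeny classes; this also includes the fibres with complex
multiplication). In the Lean statement `NoAtypical` is shown for all points which are `Dependent` (so also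
for isogenous curves with arbitrary points); the dimension is the number of coordinates which are
algebraically independent over `F` (or over the algebraic closure, to which the `λ_i` belong).

**The fibre.** The elements of `neighbours ℓ c_k` are the `j`-invariants of the quotients `E / C`, where
`E = E_k (s_k)`, and `C` runs through the `ℓ + 1` subgroups of order `ℓ`. `Separated c` says that there are
primes `ℓ_(a,i) ≡ 1 mod 4` (`a = 0, …, n`, `i = 1, …, n`) with `ℓ_(a,i) + 1` different neighbours of each
`c_k`, and automorphisms `σ_a` of `ℂ` which fix the `c_k` and the roots of unity of order `ℓ_(a,i)`, such that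
`σ_b` fixes no `ℓ_(a,i)`-neighbour of `c_k` if `(b,k) = (a,i)`, and exactly two of them otherwise. By (I) the
theorem is true without any hypothesis for a set of integral points `c` of positive density, which
contains an open dense subset of `ℤ^n` for the congruence topology, for example for the schemes with
`A_i = -108 τ (τ - 1728)`, `B_i = -432 τ (τ - 1728)²`, whose `j`-invariant is `τ`, and `s = c`.
*Moreover the condition is true by Serre's open image theorem* (this is not proved here, and it
is only used for this remark) if the fibres `E_i (s_i)` are without complex multiplication and pairwise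
not isogenous over the algebraic closure: then the image of the absolute Galois group of the field
generated by the `c_k` and all roots of unity in `∏_ℓ ∏_k SL_2 (𝔽_ℓ)` is everything for each finite set of
sufficiently large primes `ℓ` (Serre, Propriétés galoisiennes des points d'ordre fini des courbes
elliptiques, for two curves together with Faltings' isogeny theorem; for several curves and primes by
the lemmas of Goursat and Ribet). So the theorem holds for *all* fibres of `𝒜` over algebraic points `s`
whose factors are without complex multiplication and pairwise not isogenous.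

**Relation to earlier results.** Our result `MP_28d749_ag.IntegralCentres` is about almost all pairs `(s, t)`,
`s ∈ ℤ^n`, and elliptic schemes over `ℚ`; it says nothing about a given fibre, about centres which are not
integral, or about schemes over other fields. The library has results on curves near the cusps
(`ProductsOfEllipticFamilies`) and on powers of one elliptic scheme. Our result
`MP_d83ecd_ag.FixedCentres` is about special subvarieties of `Y(1)^n`; there are no points of elliptic
curves in it. New here: a given fibre and almost all `t`, for all products of elliptic schemes over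
number fields, and sets `P`, `N` which depend only on the `j`-invariants of the fibre.

**Idea of the proof.** By Chebotarev's theorem for the Galois closure of the field generated by the
neighbours of the `c_k` the sum of the reciprocals of the primes `p` for which `σ_0` is the Frobenius of a
suitable prime above `p` is divergent. By Kronecker's congruence (proved in Lean) the discriminants of
the Frobenius endomorphisms of the reductions of the fibres are nonresidues modulo `ℓ_(0,i)` for exactly
one `i`. So the reductions are ordinary and geometrically not isogenous, and numbers near to `c_i` and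
`c_k`, `i ≠ k`, are not isogenous (canonical lifts and the canonical isogeny). Let `p ∣ t`, `p ∈ P` large, and
consider embeddings of `ℂ` into `ℂ_p` for which finitely many coefficients are units. For a point `u` of
`V_λ` at most `m` of the coordinates are larger than `1`. For the `i` for which `u_i` and `u_(n+i)` are not
among them `E_i (τ_i)` is near to `E_i (s_i)`, and `P_i` is near to the origin, but different from it;
therefore it has infinite order (formal group; library module `W466.ED`). Coordinates `u_i`, `u_(n+i)`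
which are transcendental can be given prescribed values in `ℂ_p`, of absolute value `|p|^(-1/4)`, so that
they are larger than `1`, but `τ_i` is still near to `s_i`, and `P_i` still near to the origin. This gives
`n - m + |W|` different isogeny classes with points of infinite order (`kf_local`).
-/

set_option autoImplicit false

namespace Pool.Agent.Results.MP_28d749_ag.FixedCentres

open UpperHalfPlane H294ZP Polynomial

/-- The curve `y² = x³ + a x + b` over the complex numbers. -/
def curve (a b : ℂ) : WeierstrassCurve.Affine ℂ := ⟨0, 0, 0, a, b⟩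

/-- The `x`-coordinate of a point of the curve (`0` for the origin). -/
def xCoord {a b : ℂ} : (curve a b).Point → ℂ
  | .zero => 0
  | .some x _ _ => x

/-- The curves `y² = x³ + a x + b` and `y² = x³ + a' x + b'` are isogenous: their `j`-invariants
`6912 a³ / (4 a³ + 27 b²)` and `6912 a'³ / (4 a'³ + 27 b'²)` are `j (w)` and `j (w')` with
`w' = (k w + l) / (k' w + l')` for integers `k, l, k', l'` with `k l' - l k' > 0`. -/
def Isogenous (a b a' b' : ℂ) : Prop :=
  ∃ (w w' : ℍ) (k l k' l' : ℤ), 0 < k * l' - l * k' ∧ (w' : ℂ) * (k' * w + l') = k * w + l ∧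
    jj w * (4 * a ^ 3 + 27 * b ^ 2) = 6912 * a ^ 3 ∧
    jj w' * (4 * a' ^ 3 + 27 * b' ^ 2) = 6912 * a' ^ 3

/-- The points `P_i` of the elliptic curves `E_i : y² = x³ + a_i x + b_i` for which there is a number
`r ≤ n - ρ` and a partition of `{1, …, n}` into `r` classes of pairwise isogenous curves and a set of indices
with points `P_i` of finite order. This is true if `(P_1, …, P_n)` is in an algebraic subgroup of
codimension at least `ρ` of `E_1 × ⋯ × E_n`. -/
def Dependent {n : ℕ} (ρ : ℕ) (a b : Fin n → ℂ) (P : ∀ i, (curve (a i) (b i)).Point) : Prop :=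
  ∃ (r : ℕ) (cls : Fin n → Option (Fin r)), r + ρ ≤ n ∧
    (∀ i, cls i = none → IsOfFinAddOrder (P i)) ∧
    ∀ i k, i ≠ k → cls i = cls k → cls i ≠ none → Isogenous (a i) (b i) (a k) (b k)

/-- A family of subsets `V_λ` of `ℂ^d` of dimension `m` over `F` with parameters `λ ∈ ℂ^q`,
in general position at infinity: for each set `J` of `m + 1` coordinates there is an equation
`lead_J ∏_(i ∈ J) u_i ^ (expo_J i) + rest_J (λ, u) = 0` over `F`, `lead_J ≠ 0`,
and the monomials of `rest_J` have degree at most `expo_J i` in `u_i` for all `i`, and not equality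
for all `i`. -/
structure Family (F : Subfield ℂ) (d q m : ℕ) where
  expo : Finset (Fin d) → Fin d → ℕ
  lead : Finset (Fin d) → F
  rest : Finset (Fin d) → MvPolynomial (Fin q ⊕ Fin d) F
  expo_eq_zero : ∀ J i, i ∉ J → expo J i = 0
  lead_ne_zero : ∀ J, lead J ≠ 0
  lower : ∀ J, ∀ e ∈ (rest J).support, (∀ i, e (Sum.inr i) ≤ expo J i) ∧
    ∃ i, e (Sum.inr i) < expo J i

/-- The member of the family with the parameters `λ`. -/
def Family.member {F : Subfield ℂ} {d q m : ℕ} (V : Family F d q m) (lam : Fin q → ℂ) :
    Set (Fin d → ℂ) :=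
  {u | ∀ J : Finset (Fin d), J.card = m + 1 →
    (V.lead J : ℂ) * ∏ i, u i ^ V.expo J i + MvPolynomial.aeval (Sum.elim lam u) (V.rest J) = 0}

/-- The `i`-th coordinate of the point of the base. -/
def base {n : ℕ} (s : Fin n → ℂ) (t : ℕ) (u : Fin (n + n) → ℂ) (i : Fin n) : ℂ :=
  s i + t * u (Fin.castAdd n i)

/-- All intersections of `X` with algebraic subgroups of the fibres have at most the expected
dimension. `X` is the set of all points `(τ_1, …, τ_n; P_1, …, P_n)` with
`τ_i = s_i + t u_i`, `P_i` a point of the elliptic curve `y² = x³ + A_i (τ_i) x + B_i (τ_i)` with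
`x (P_i) = 1 / (t u_(n+i))`, `u ∈ V`. -/
def NoAtypical {n : ℕ} (F : Subfield ℂ) (m : ℕ) (A B : Fin n → ℂ[X]) (s : Fin n → ℂ) (t : ℕ)
    (V : Set (Fin (n + n) → ℂ)) : Prop :=
  ∀ u ∈ V, (∀ i, 4 * (A i).eval (base s t u i) ^ 3 + 27 * (B i).eval (base s t u i) ^ 2 ≠ 0) →
    ∀ P : ∀ i, (curve ((A i).eval (base s t u i)) ((B i).eval (base s t u i))).Point,
      (∀ i, t * u (Fin.natAdd n i) * xCoord (P i) = 1) → ∀ ρ : ℕ, Dependent ρ _ _ P →
        ∀ W : Finset (Fin (n + n)), AlgebraicIndependent F (fun j : W => u j) → W.card + ρ ≤ m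

/-- The numbers `j (g τ)`, where `j (τ) = s` and `g` is an integral matrix of determinant `ℓ`: the
`j`-invariants of the quotients by subgroups of order `ℓ` of an elliptic curve with `j`-invariant `s`. -/
def neighbours (ℓ : ℕ) (s : ℂ) : Set ℂ :=
  {y | ∃ (g : Matrix (Fin 2) (Fin 2) ℤ) (τ w : ℍ), g.det = ℓ ∧
    (w : ℂ) * (g 1 0 * τ + g 1 1) = g 0 0 * τ + g 0 1 ∧ jj τ = s ∧ jj w = y}

/-- The Galois condition for the centre: there are primes `ℓ_(a,i) ≡ 1 mod 4` (`a = 0, …, n`) with
`ℓ_(a,i) + 1` neighbours of each `s_k`, and automorphisms `σ_a` of `ℂ` which fix the `s_k` and the roots of unity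
of order `ℓ_(a,i)`, such that `σ_b` fixes no `ℓ_(a,i)`-neighbour of `s_k` if `(b, k) = (a, i)`, and exactly two of
them otherwise. -/
def Separated {n : ℕ} (s : Fin n → ℂ) : Prop :=
  ∃ (ℓ : Fin (n + 1) → Fin n → ℕ) (σ : Fin (n + 1) → ℂ ≃+* ℂ),
    (∀ a k, σ a (s k) = s k) ∧
    (∀ a i, (ℓ a i).Prime ∧ ℓ a i % 4 = 1 ∧ σ a (Complex.exp (2 * Real.pi * Complex.I / ℓ a i)) =
      Complex.exp (2 * Real.pi * Complex.I / ℓ a i)) ∧
    (∀ a i k, (neighbours (ℓ a i) (s k)).ncard = ℓ a i + 1) ∧
    (∀ a i, ∀ y ∈ neighbours (ℓ a i) (s i), σ a y ≠ y) ∧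
    ∀ a i b k, (b, k) ≠ (a, i) → {y | y ∈ neighbours (ℓ a i) (s k) ∧ σ b y = y}.ncard = 2

/-- `N` has density zero. -/
def DensityZero (N : Set ℕ) : Prop :=
  ∀ ε : ℝ, 0 < ε → ∃ H₀ : ℕ, ∀ H : ℕ, H₀ ≤ H → ((N ∩ Set.Icc 0 H).ncard : ℝ) ≤ ε * H

open Pool.Agent.H882 Pool.Agent.Y226 Pool.Agent.W466.EP Pool.Agent.N135.ZO Cardinal

theorem main (n : ℕ) (c : Fin n → ℂ) (hc : ∀ i, IsAlgebraic ℚ (c i) ∧ c i ≠ 0 ∧ c i ≠ 1728)
    (hsep : Separated c) :
    ∃ P N : Set ℕ, (∀ p ∈ P, p.Prime) ∧ ¬ Summable (P.indicator fun p : ℕ => (1 : ℝ) / p) ∧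
      DensityZero N ∧
      ∀ (A B : Fin n → ℂ[X]) (s : Fin n → ℂ), (∀ i, IsAlgebraic ℚ (s i)) →
        (∀ i k, IsAlgebraic ℚ ((A i).coeff k) ∧ IsAlgebraic ℚ ((B i).coeff k)) →
        (∀ i, 4 * (A i).eval (s i) ^ 3 + 27 * (B i).eval (s i) ^ 2 ≠ 0 ∧
          6912 * (A i).eval (s i) ^ 3 =
            c i * (4 * (A i).eval (s i) ^ 3 + 27 * (B i).eval (s i) ^ 2)) →
        ∀ (F : Subfield ℂ) (m q : ℕ) (V : Family F (n + n) q m),
          (∃ B₀ : ℕ, ∀ t : ℕ, (∃ p ∈ P, B₀ < p ∧ p ∣ t) →
            ∀ lam : Fin q → ℂ, (∀ i, IsIntegral ℤ (lam i)) →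
              NoAtypical F m A B s t (V.member lam)) ∧
          ∃ T : ℕ, ∀ t : ℕ, T ≤ t → t ∉ N →
            ∀ lam : Fin q → ℂ, (∀ i, IsIntegral ℤ (lam i)) →
              NoAtypical F m A B s t (V.member lam) := by
  classical
  obtain ⟨ℓ, σ, hsep'⟩ := hsep
  obtain ⟨c', hc'⟩ : ∃ c' : Fin n → QA, ∀ i, (c' i : ℂ) = c i :=
    ⟨fun i => ⟨c i, mem_QA.2 (hc i).1⟩, fun _ => rfl⟩
  obtain rfl : c = fun i => (c' i : ℂ) := funext fun i => (hc' i).symm
  obtain ⟨P, hP, hPd, hloc⟩ := kf_primes (s := c') (fun i =>
    ⟨fun h => (hc i).2.1 (congrArg (fun z : QA => (z : ℂ)) h),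
      fun h => (hc i).2.2 (congrArg (fun z : QA => (z : ℂ)) h)⟩)
    (ℓ := ℓ) (σ := σ) hsep'
  obtain ⟨N, hN, hNT⟩ := fx_null (n := 0) (fun _ => P) (fun _ p hp => (hP p hp).1) fun _ => hPd
  refine ⟨P, N, fun p hp => (hP p hp).1, hPd.not_summable, hN,
    fun A B s hs hAB hsc F m q V => ?_⟩
  have hmain : ∃ B₀ : ℕ, ∀ t : ℕ, (∃ p ∈ P, B₀ < p ∧ p ∣ t) →
      ∀ lam : Fin q → ℂ, (∀ i, IsIntegral ℤ (lam i)) →
        NoAtypical F m A B s t (V.member lam) := ?_
  · refine ⟨hmain, ?_⟩
    obtain ⟨B₀, hB₀⟩ := hmain
    obtain ⟨T, hT⟩ := hNT B₀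
    exact ⟨T, fun t ht htN lam hlam => hB₀ t (hT t ht htN 0) lam hlam⟩
  obtain ⟨S, hS0, hSF, hbad⟩ := inf_bad (m := m) V.expo V.lead V.rest V.expo_eq_zero
    V.lead_ne_zero V.lower
  obtain ⟨F₀, hF₀⟩ : ∃ F₀ : Subfield ℂ, F₀ = Subfield.closure (S : Set ℂ) := ⟨_, rfl⟩
  have hF₀F : F₀ ≤ F := by
    rw [hF₀, Subfield.closure_le]
    exact fun b hb => hSF b hb
  have hF₀c : #F₀ ≤ ℵ₀ := by
    rw [hF₀]
    refine (Subfield.cardinalMk_closure_le_max _).trans (max_le ?_ le_rfl)
    exact (Cardinal.lt_aleph0_of_finite _).le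
  obtain ⟨B₁, hB₁⟩ := emb_units hF₀c S hS0 fun b hb => by
    rw [hF₀]
    exact Subfield.subset_closure hb
  -- the algebraic numbers
  let T : Finset ℂ := Finset.univ.biUnion fun i : Fin n =>
    ({s i, (c' i : ℂ), 4 * (A i).eval (s i) ^ 3 + 27 * (B i).eval (s i) ^ 2} : Finset ℂ) ∪
      ((A i).support.image (A i).coeff ∪ (B i).support.image (B i).coeff)
  have heval : ∀ f : ℂ[X], (∀ k, IsAlgebraic ℚ (f.coeff k)) → ∀ i, f.eval (s i) ∈ QA := by
    intro f hf i
    rw [Polynomial.eval_eq_sum, Polynomial.sum]
    exact sum_mem fun k _ => mul_mem (mem_QA.2 (hf k)) (pow_mem (mem_QA.2 (hs i)) k)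
  have hTQ : ∀ z ∈ T, z ∈ QA := by
    intro z hz
    obtain ⟨i, -, hi⟩ := Finset.mem_biUnion.1 hz
    rcases Finset.mem_union.1 hi with hi | hi
    · rw [Finset.mem_insert, Finset.mem_insert, Finset.mem_singleton] at hi
      rcases hi with rfl | rfl | rfl
      · exact mem_QA.2 (hs i)
      · exact (c' i).2
      · have h4 : (4 : ℂ) ∈ QA := by exact_mod_cast natCast_mem QA 4
        have h27 : (27 : ℂ) ∈ QA := by exact_mod_cast natCast_mem QA 27
        exact add_mem (mul_mem h4 (pow_mem (heval _ (fun k => (hAB i k).1) i) 3))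
          (mul_mem h27 (pow_mem (heval _ (fun k => (hAB i k).2) i) 2))
    · rcases Finset.mem_union.1 hi with hi | hi
      · obtain ⟨k, -, rfl⟩ := Finset.mem_image.1 hi
        exact mem_QA.2 (hAB i k).1
      · obtain ⟨k, -, rfl⟩ := Finset.mem_image.1 hi
        exact mem_QA.2 (hAB i k).2
  obtain ⟨B₂, hB₂⟩ := int_large_all T hTQ
  refine ⟨B₁ + B₂, fun t ht lam hlam => ?_⟩
  intro u hu hdisc Pt hPt ρ hdep W hind
  obtain ⟨p, hpP, hpB, hpt⟩ := ht
  obtain ⟨r, cls, hr, hc1, hc2⟩ := hdep
  obtain ⟨p1, hp3⟩ := hP p hpP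
  obtain ⟨C', i1, i2, i3, i4, i5, φ₀, hpC, hCI⟩ := hloc p hpP
  have hp1 : ‖(p : C')‖ < 1 := by
    rw [hpC]
    exact inv_lt_one_of_one_lt₀ (by exact_mod_cast p1.one_lt)
  have hind' : AlgebraicIndependent F₀ (fun j : W => u j) := by
    let : Algebra F₀ F := (Subfield.inclusion hF₀F).toAlgebra
    have : IsScalarTower F₀ F ℂ := IsScalarTower.of_algebraMap_eq fun x => rfl
    exact hind.restrictScalars (algebraMap F₀ F).injective
  have key : n + W.card ≤ m + r := by
    refine kf_local (n := n) p1 φ₀ hpC (c := c') hCI (F := F₀) (m := m) A B s t hpt ?_ ?_ u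
      (fun {ι} _ y' hy' a => ?_) Pt ?_ cls ?_ ?_ W hind'
    · intro Φ hΦ i
      have hTi : ∀ z ∈ T, ‖Φ z‖ ≤ 1 ∧ (z ≠ 0 → ‖Φ z‖ = 1) := hB₂ p p1 (by omega) C' Φ hp1
      have hmem : ∀ z, z ∈ (({s i, (c' i : ℂ), 4 * (A i).eval (s i) ^ 3 +
          27 * (B i).eval (s i) ^ 2} : Finset ℂ) ∪
          ((A i).support.image (A i).coeff ∪ (B i).support.image (B i).coeff)) → z ∈ T :=
        fun z hz => Finset.mem_biUnion.2 ⟨i, Finset.mem_univ i, hz⟩
      have hcf : ∀ (f : ℂ[X]), (∀ k ∈ f.support, f.coeff k ∈ T) → ∀ k, ‖Φ (f.coeff k)‖ ≤ 1 := by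
        intro f hf k
        by_cases hk : k ∈ f.support
        · exact (hTi _ (hf k hk)).1
        · rw [Polynomial.notMem_support_iff.1 hk, map_zero, norm_zero]
          exact zero_le_one
      refine ⟨(hTi _ (hmem _ (Finset.mem_union_left _ (by simp)))).1,
        (hTi _ (hmem _ (Finset.mem_union_left _ (by simp)))).1,
        hcf _ fun k hk => hmem _ (Finset.mem_union_right _ (Finset.mem_union_left _
          (Finset.mem_image_of_mem _ hk))),
        hcf _ fun k hk => hmem _ (Finset.mem_union_right _ (Finset.mem_union_right _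
          (Finset.mem_image_of_mem _ hk))),
        (hTi _ (hmem _ (Finset.mem_union_left _ (by simp)))).2 (hsc i).1⟩
    · exact fun i => (hsc i).2
    · obtain ⟨Φ, g1, g2, g3⟩ := hB₁ p p1 (by omega) C' φ₀ hpC y' hy' a
      exact ⟨Φ, g1, g2, hbad C' Φ g3 lam hlam u hu⟩
    · intro i
      have h1 := hPt i
      have e : xCoord (Pt i) = xx (Pt i) := by
        rcases Pt i with _ | ⟨x, y, h⟩
        · rfl
        · rfl
      rw [e] at h1
      exact h1
    · intro i hi
      exact hc1 i hi
    · intro i k hik hcls hnone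
      obtain ⟨w, w', k₁, l₁, k₂, l₂, hdet, hrel, hw, hw'⟩ := hc2 i k hik hcls hnone
      refine ⟨w, w', !![k₁, l₁; k₂, l₂], ?_, ?_, hw, hw'⟩
      · rw [Matrix.det_fin_two_of]
        exact hdet
      · unfold N135.ZO.Rel N135.ZO.den N135.ZO.num
        simpa using hrel
  omega

/-- The theorem. -/
theorem result (n : ℕ) :
    (∀ (N : ℕ) (c₀ : Fin n → ℤ), 0 < N → ∃ (M : ℕ) (c' : Fin n → ℤ), 0 < M ∧ N ∣ M ∧
      (∀ i, (N : ℤ) ∣ c' i - c₀ i) ∧ ∀ c : Fin n → ℤ, (∀ i, (M : ℤ) ∣ c i - c' i) →
        (∀ i, c i ≠ 0 ∧ c i ≠ 1728) ∧ Separated fun i => (c i : ℂ)) ∧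
    ∀ c : Fin n → ℂ, (∀ i, IsAlgebraic ℚ (c i) ∧ c i ≠ 0 ∧ c i ≠ 1728) → Separated c →
    ∃ P N : Set ℕ, (∀ p ∈ P, p.Prime) ∧ ¬ Summable (P.indicator fun p : ℕ => (1 : ℝ) / p) ∧
      DensityZero N ∧
      ∀ (A B : Fin n → ℂ[X]) (s : Fin n → ℂ), (∀ i, IsAlgebraic ℚ (s i)) →
        (∀ i k, IsAlgebraic ℚ ((A i).coeff k) ∧ IsAlgebraic ℚ ((B i).coeff k)) →
        (∀ i, 4 * (A i).eval (s i) ^ 3 + 27 * (B i).eval (s i) ^ 2 ≠ 0 ∧
          6912 * (A i).eval (s i) ^ 3 =
            c i * (4 * (A i).eval (s i) ^ 3 + 27 * (B i).eval (s i) ^ 2)) →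
        ∀ (F : Subfield ℂ) (m q : ℕ) (V : Family F (n + n) q m),
          (∃ B₀ : ℕ, ∀ t : ℕ, (∃ p ∈ P, B₀ < p ∧ p ∣ t) →
            ∀ lam : Fin q → ℂ, (∀ i, IsIntegral ℤ (lam i)) →
              NoAtypical F m A B s t (V.member lam)) ∧
          ∃ T : ℕ, ∀ t : ℕ, T ≤ t → t ∉ N →
            ∀ lam : Fin q → ℂ, (∀ i, IsIntegral ℤ (lam i)) →
              NoAtypical F m A B s t (V.member lam) := by
  refine ⟨?_, fun c hc hsep => main n c hc hsep⟩
  intro N c₀ hN
  obtain ⟨M, c, hM, hNM, hc, h⟩ := dense_sep n N hN c₀
  refine ⟨M, c, hM, hNM, hc, fun s hs => ?_⟩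
  obtain ⟨h0, ℓ, σ, hsep⟩ := h s hs
  exact ⟨h0, ℓ, σ, hsep⟩

end Pool.Agent.Results.MP_28d749_ag.FixedCentres
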