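import Pool.Agent.H882.KuPrime
import Pool.Agent.H882.KuCls
import Pool.Agent.H882.KuInf

/-!
# MP_28d749_ag: Pink's conjecture for one hundred percent, with a power saving, of the homothetic images of
subvarieties of products of elliptic schemes, with integral centres

**The abelian schemes.** For `i = 1, …, n` let `E_i : y² = x³ + A_i (τ) x + B_i (τ)`, `A_i, B_i ∈ ℤ[τ]`, be an
elliptic scheme over the open subset `4 A_i³ + 27 B_i² ≠ 0` of the affine line, with nonconstant
`j`-invariant (that is, `A_i³` and `B_i²` are linearly independent); these are all the nonisotrivial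
elliptic schemes over open subsets of the affine line over `ℚ`, after shrinking the base, for example the
Legendre family. Let `𝒜 = E_1 × ⋯ × E_n`, an abelian scheme of relative dimension `n` over an open subset
`S` of the affine space with the coordinates `τ_1, …, τ_n`. By restriction one has the abelian schemes
over the subvarieties of `S`. A point of `𝒜` is given by `τ ∈ S` and points `P_i` of the curves
`E_i (τ_i)`; outside of the zero sections it is determined, up to the signs of the `P_i`, by the `2 n`
coordinates `τ_i` and `1 / x (P_i)`.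

**The subvarieties.** Let `F ⊂ ℂ` be a countable field (for example a number field or the field of all
algebraic numbers) and `V_(δ,t,λ) ⊂ ℂ^(2n)` a family of sets of dimension `m`, over `F`, with parameters
`δ ∈ ℤ^N`, `t ∈ ℕ`, `λ ∈ ℂ^q`, in general position at infinity (`Family`, `Family.member`): for every set `J` of
`m + 1` of the `2 n` coordinates there is an equation

  `lead_J (δ) ∏_(i ∈ J) u_i ^ e_(J,i) + rest_J (δ, t, λ, u) = 0`,   `lead_J ≠ 0`,

in which all monomials in `u` of `rest_J` are proper divisors of the first one. For example `V` can be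
* `λ V'` for any subvariety `V'` over `F` of dimension `m`, whose closure in `(ℙ^1)^(2n)` contains no point
  with more than `m` infinite coordinates, and `λ` an algebraic integer;
* for an ARBITRARY subvariety `V'` of dimension `m` over `F` the image of `V'` under the Möbius transformations
  `v_i ↦ λ_i / (v_i - δ_i)` (if `P_J (v_j, j ∈ J) = 0` is an equation for `V'`, the equation is
  `∏ u_i ^ e_(J,i) P_J (δ_i + λ_i / u_i) = 0`, with `lead_J = P_J (δ)`).

For `s ∈ ℤ^n` let `X = X_(s,δ,t,λ)` be the set of all points of `𝒜` for which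

  `((τ_1 - s_1) / t, …, (τ_n - s_n) / t; 1 / (t x (P_1)), …, 1 / (t x (P_n))) ∈ V_(δ,t,λ)`,

a closed subset of `𝒜` minus the zero sections, of the dimension of `V`.

**Theorem.** For all sufficiently large prime numbers `p` there is a set `S_p` of
`O (p ^ (n + N - 1/2 + ε))` of the `p ^ (n + N)` residue classes of the parameters `(s, δ)` modulo `p` such
that for all multiples `t` of `p`, all `(s, δ)` with `(s, δ) mod p ∉ S_p` and ALL algebraic integers `λ_i`

  **all intersections of `X` with algebraic subgroups of the fibres of `𝒜` are typical: for all `ρ` the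
  intersection `X ∩ 𝒜^[≥ρ]` with the union of all algebraic subgroups of codimension at least `ρ` of
  all fibres is empty or of dimension at most `m - ρ`; in particular `X ∩ 𝒜^[>m]` is empty.**

This is true for all but `O (H ^ (n + N + 1/2 + ε))` of the `≫ H ^ (n + N + 1)` parameters
`(s, δ, t) ∈ ℤ^n × ℤ^N × ℕ` with `|s_i|, |δ_i|, t ≤ H`. So for these parameters Q1 is true for the closures
`𝒳` in `𝒜` of the irreducible components of dimension `m` of `X`: `𝒳 ∩ 𝒜^[>m]` is contained in the zero
sections `P_i = 0`, `i ≤ n`, so it is not dense in `𝒳` (and by the case `ρ = 1` the generic point of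
`𝒳` is in no strict algebraic subgroup of its fibre). The base and the fibre coordinates are treated in
the same way: the theorem contains the statement for multisections over subvarieties of `S` of all
dimensions, and for families of curves, surfaces, … in the fibres.

**Algebraic subgroups.** Let `(P_i)` be contained in an algebraic subgroup `H` of codimension at least
`ρ` of the product `E_1 × ⋯ × E_n` of elliptic curves over `ℂ`. Up to finite groups `H` is the product of
algebraic subgroups `H_C` of the products over the isogeny classes `C`. The codimension of `H_C` is at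
most `|C|`, and `|C| - 1` if one of the `P_i`, `i ∈ C`, has infinite order. So if `r` is the number of the
isogeny classes for which one of the `P_i` has infinite order then `r + ρ ≤ n` (`Dependent`; the classes
of the definition are these `r` isogeny classes; this also includes the fibres with complex
multiplication). In the Lean statement `NoAtypical` is shown for all points which are `Dependent` (so also
for isogenous curves with arbitrary points); the dimension is the number of coordinates which are
algebraically independent over `F` (or over the algebraic closure, to which the `λ_i` belong).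

**Idea of the proof.** Let `p` be a large prime divisor of `t`. Consider embeddings of `ℂ` into `ℂ_p` for
which `lead_J (δ)` and the coefficients are units. For a point `u` of `V` at most `m` of the coordinates
are larger than `1`. For the `i` for which `u_i` and `u_(n+i)` are not among them `τ_i` is near to `s_i`,
and `P_i` is near to the origin, but different from it; therefore it has infinite order (formal group;
library module `W466.ED`). If the `j`-invariants of `E_i (s_i)` are in general position modulo `p` (ordinary,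
away from `0` and `1728`, with different traces of Frobenius up to the sign), the curves `E_i (τ_i)` are
not isogenous (module `CoI`, from the library's canonical isogeny and Kronecker's congruence, as in our
result `MP_d83ecd_ag.IntegralCentres`). Coordinates `u_i`, `u_(n+i)` which are transcendental can be given
prescribed values in `ℂ_p`; so one can achieve that `τ_i` is near to `s_i + 1`, and `P_i` still near to the
origin (`ku_local`). This gives `n - m + |W|` different isogeny classes with points of infinite order.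
No condition on canonical lifts is necessary, so that one prime `p` is enough. The number of the
exceptions is bounded with module `PsCount` (as in `MP_e573c6_ag.PowerSaving`).
-/

set_option autoImplicit false

namespace Pool.Agent.Results.MP_28d749_ag.IntegralCentres

open UpperHalfPlane H294ZP Polynomial

/-- The curve `y² = x³ + a x + b` over the complex numbers. -/
def curve (a b : ℂ) : WeierstrassCurve.Affine ℂ := ⟨0, 0, 0, a, b⟩

/-- The `x`-coordinate of a point of the curve (`0` for the origin). -/
def xCoord {a b : ℂ} : (curve a b).Point → ℂ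
  | .zero => 0
  | .some x _ _ => x

/-- The curves `y² = x³ + a x + b` and `y² = x³ + a' x + b'` are isogenous: their `j`-invariants
`6912 a³ / (4 a³ + 27 b²)` and `6912 a'³ / (4 a'³ + 27 b'²)` are `j (w)` and `j (w')` with
`w' = (k w + l) / (k' w + l')` for integers `k, l, k', l'` with `k l' - l k' > 0`. -/
def Isogenous (a b a' b' : ℂ) : Prop :=
  ∃ (w w' : ℍ) (k l k' l' : ℤ), 0 < k * l' - l * k' ∧ (w' : ℂ) * (k' * w + l') = k * w + l ∧
    jj w * (4 * a ^ 3 + 27 * b ^ 2) = 6912 * a ^ 3 ∧
    jj w' * (4 * a' ^ 3 + 27 * b' ^ 2) = 6912 * a' ^ 3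

/-- The points `P_i` of the elliptic curves `E_i : y² = x³ + a_i x + b_i` for which there is a number
`r ≤ n - ρ` and a partition of `{1, …, n}` into `r` classes of pairwise isogenous curves and a set of indices
with points `P_i` of finite order. This is true if `(P_1, …, P_n)` is in an algebraic subgroup of
codimension at least `ρ` of `E_1 × ⋯ × E_n`. -/
def Dependent {n : ℕ} (ρ : ℕ) (a b : Fin n → ℂ) (P : ∀ i, (curve (a i) (b i)).Point) : Prop :=
  ∃ (r : ℕ) (cls : Fin n → Option (Fin r)), r + ρ ≤ n ∧
    (∀ i, cls i = none → IsOfFinAddOrder (P i)) ∧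
    ∀ i k, i ≠ k → cls i = cls k → cls i ≠ none → Isogenous (a i) (b i) (a k) (b k)

/-- A family of subsets `V_(δ,t,λ)` of `ℂ^d` of dimension `m` with parameters `δ ∈ ℤ^N`, `t ∈ ℕ`, `λ ∈ ℂ^q`,
in general position at infinity: for each set `J` of `m + 1` coordinates there is an equation
`lead_J (δ) ∏_(i ∈ J) u_i ^ (expo_J i) + rest_J (δ, t, λ, u) = 0` with polynomials over `F`, `lead_J ≠ 0`,
and the monomials of `rest_J` have degree at most `expo_J i` in `u_i` for all `i`, and not equality
for all `i`. -/
structure Family (F : Subfield ℂ) (d N q m : ℕ) where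
  expo : Finset (Fin d) → Fin d → ℕ
  lead : Finset (Fin d) → MvPolynomial (Fin N) F
  rest : Finset (Fin d) → MvPolynomial ((Fin N ⊕ Fin 1) ⊕ (Fin q ⊕ Fin d)) F
  expo_eq_zero : ∀ J i, i ∉ J → expo J i = 0
  lead_ne_zero : ∀ J, lead J ≠ 0
  lower : ∀ J, ∀ e ∈ (rest J).support, (∀ i, e (Sum.inr (Sum.inr i)) ≤ expo J i) ∧
    ∃ i, e (Sum.inr (Sum.inr i)) < expo J i

/-- The member of the family with the parameters `δ, t, λ`. -/
def Family.member {F : Subfield ℂ} {d N q m : ℕ} (V : Family F d N q m) (δ : Fin N → ℤ)
    (t : ℕ) (lam : Fin q → ℂ) : Set (Fin d → ℂ) :=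
  {u | ∀ J : Finset (Fin d), J.card = m + 1 →
    MvPolynomial.aeval (fun i => (δ i : ℂ)) (V.lead J) * ∏ i, u i ^ V.expo J i +
      MvPolynomial.aeval (Sum.elim (Sum.elim (fun i => (δ i : ℂ))
        (fun _ => (t : ℂ))) (Sum.elim lam u)) (V.rest J) = 0}

/-- The `i`-th coordinate of the point of the base. -/
def base {n : ℕ} (s : Fin n → ℤ) (t : ℕ) (u : Fin (n + n) → ℂ) (i : Fin n) : ℂ :=
  s i + t * u (Fin.castAdd n i)

/-- All intersections of `X` with algebraic subgroups of the fibres have at most the expected
dimension. `X` is the set of all points `(τ_1, …, τ_n; P_1, …, P_n)` with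
`τ_i = s_i + t u_i`, `P_i` a point of the elliptic curve `y² = x³ + A_i (τ_i) x + B_i (τ_i)` with
`x (P_i) = 1 / (t u_(n+i))`, `u ∈ V`. -/
def NoAtypical {n : ℕ} (F : Subfield ℂ) (m : ℕ) (A B : Fin n → ℤ[X]) (s : Fin n → ℤ) (t : ℕ)
    (V : Set (Fin (n + n) → ℂ)) : Prop :=
  ∀ u ∈ V, (∀ i, 4 * aeval (base s t u i) (A i) ^ 3 + 27 * aeval (base s t u i) (B i) ^ 2 ≠ 0) →
    ∀ P : ∀ i, (curve (aeval (base s t u i) (A i)) (aeval (base s t u i) (B i))).Point,
      (∀ i, t * u (Fin.natAdd n i) * xCoord (P i) = 1) → ∀ ρ : ℕ, Dependent ρ _ _ P →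
        ∀ W : Finset (Fin (n + n)), AlgebraicIndependent F (fun j : W => u j) → W.card + ρ ≤ m

/-- For all algebraic integers `λ_i` the variety `X` of `V_(δ,t,λ)` has no atypical intersections with
algebraic subgroups of the fibres. -/
def Good {F : Subfield ℂ} {n N q m : ℕ} (V : Family F (n + n) N q m) (A B : Fin n → ℤ[X])
    (s : Fin n → ℤ) (δ : Fin N → ℤ) (t : ℕ) : Prop :=
  ∀ lam : Fin q → ℂ, (∀ i, IsIntegral ℤ (lam i)) → NoAtypical F m A B s t (V.member δ t lam)

open Pool.Agent.H882 Pool.Agent.Y226 Pool.Agent.W466.EP Pool.Agent.N135.ZO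

/-- The theorem. -/
theorem result (n N q : ℕ) (F : Subfield ℂ) [Countable F] (m : ℕ) (V : Family F (n + n) N q m)
    (A B : Fin n → ℤ[X])
    (hj : ∀ i, ∀ c d : ℤ, Polynomial.C c * A i ^ 3 = Polynomial.C d * B i ^ 2 → c = 0 ∧ d = 0) :
    (∃ (B₀ : ℕ) (S : ∀ p : ℕ, Set ((Fin n → ZMod p) × (Fin N → ZMod p))),
      (∀ ε : ℝ, 0 < ε → ∃ C : ℝ, ∀ p : ℕ, p.Prime → B₀ < p →
        ((S p).ncard : ℝ) ≤ C * (p : ℝ) ^ ((n : ℝ) + N - 1 / 2 + ε)) ∧
      ∀ p : ℕ, p.Prime → B₀ < p → ∀ (s : Fin n → ℤ) (δ : Fin N → ℤ) (t : ℕ), 0 < t → p ∣ t →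
        ((fun i => (s i : ZMod p)), fun i => (δ i : ZMod p)) ∉ S p → Good V A B s δ t) ∧
    ∀ ε : ℝ, 0 < ε → ∃ C : ℝ, ∀ H : ℕ, 0 < H →
      ({a : (Fin n → ℤ) × (Fin N → ℤ) × ℕ | (∀ i, |a.1 i| ≤ (H : ℤ)) ∧
        (∀ i, |a.2.1 i| ≤ (H : ℤ)) ∧ 0 < a.2.2 ∧ a.2.2 ≤ H ∧
        ¬ Good V A B a.1 a.2.1 a.2.2}.ncard : ℝ) ≤ C * (H : ℝ) ^ ((n : ℝ) + N + 1 / 2 + ε) := by
  classical
  obtain ⟨E, hE, hcore⟩ := core_all_i n
  have hinjF : Function.Injective (algebraMap F ℂ) := (algebraMap F ℂ).injective
  -- the unit conditions
  let Ql : Finset (Fin (n + n)) → MvPolynomial (Fin (n + N)) ℂ := fun J =>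
    MvPolynomial.map (algebraMap F ℂ) (MvPolynomial.rename (Fin.natAdd n) (V.lead J))
  let Q : Finset (MvPolynomial (Fin (n + N)) ℂ) := Finset.univ.image Ql
  have hQ0 : ∀ q ∈ Q, q ≠ 0 := by
    intro q hq
    obtain ⟨J, -, rfl⟩ := Finset.mem_image.1 hq
    intro h
    have h1 : MvPolynomial.rename (Fin.natAdd n) (V.lead J) = 0 :=
      MvPolynomial.map_injective _ hinjF (by rw [map_zero]; exact h)
    exact V.lead_ne_zero J
      (MvPolynomial.rename_injective _ (Fin.natAdd_injective N n) (by rw [h1, map_zero]))
  have hQF : ∀ q ∈ Q, ∀ v, q.coeff v ∈ F := by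
    intro q hq v
    obtain ⟨J, -, rfl⟩ := Finset.mem_image.1 hq
    show (MvPolynomial.map (algebraMap F ℂ)
      (MvPolynomial.rename (Fin.natAdd n) (V.lead J))).coeff v ∈ F
    rw [MvPolynomial.coeff_map]
    exact Subtype.property _
  -- the coefficients
  let S : Finset ℂ := Finset.univ.biUnion fun J : Finset (Fin (n + n)) =>
      (V.rest J).support.image fun v => (((V.rest J).coeff v : F) : ℂ)
  have hne : ∀ c : F, c ≠ 0 → (c : ℂ) ≠ 0 := fun c hc h => hc (Subtype.ext h)
  have hS0 : ∀ b ∈ S, b ≠ 0 := by
    intro b hb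
    obtain ⟨J, -, hJ⟩ := Finset.mem_biUnion.1 hb
    obtain ⟨v, hv, rfl⟩ := Finset.mem_image.1 hJ
    exact hne _ (MvPolynomial.mem_support_iff.1 hv)
  have hSF : ∀ b ∈ S, b ∈ F := by
    intro b hb
    obtain ⟨J, -, hJ⟩ := Finset.mem_biUnion.1 hb
    obtain ⟨v, hv, rfl⟩ := Finset.mem_image.1 hJ
    exact Subtype.property _
  obtain ⟨B', K, hloc⟩ := ku_prime (n := n) (F := F) Cardinal.mk_le_aleph0 Q hQ0 hQF S hS0 hSF
  have hR : ∀ i, Nonc (jnum (A i)) (jden (A i) (B i)) := by
    intro i c d h
    unfold jnum jden at h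
    obtain ⟨h1, h2⟩ := hj i (6912 * c - 4 * d) (27 * d) (by
      have e1 : Polynomial.C (6912 * c - 4 * d) * A i ^ 3 - Polynomial.C (27 * d) * B i ^ 2 =
          Polynomial.C c * (Polynomial.C 6912 * A i ^ 3) -
            Polynomial.C d * (Polynomial.C 4 * A i ^ 3 + Polynomial.C 27 * B i ^ 2) := by
        simp only [map_sub, map_mul]
        ring
      rw [← sub_eq_zero, e1, h, sub_self])
    omega
  choose Br hBr using fun i => rr_fib (hR i)
  obtain ⟨B₁, hB₁⟩ : ∃ B₁ : ℕ, B₁ = B' + 3 + ∑ i, Br i := ⟨_, rfl⟩
  have hBrle : ∀ i, Br i ≤ B₁ := fun i => by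
    have := Finset.single_le_sum (f := Br) (fun _ _ => Nat.zero_le _) (Finset.mem_univ i)
    omega
  obtain ⟨c, hc⟩ : ∃ c : ℕ, ∀ i,
      2 * (max (jnum (A i)).natDegree (jden (A i) (B i)).natDegree) ≤ c :=
    ⟨∑ i, 2 * (max (jnum (A i)).natDegree (jden (A i) (B i)).natDegree), fun i =>
      Finset.single_le_sum
        (f := fun i => 2 * (max (jnum (A i)).natDegree (jden (A i) (B i)).natDegree))
        (fun _ _ => Nat.zero_le _) (Finset.mem_univ i)⟩
  have hfib : ∀ p, p.Prime → B₁ < p → ∀ i (β : ZMod p),
      {x | rr p (jnum (A i)) (jden (A i) (B i)) x = β}.ncard ≤ c := fun p hp hlt i β =>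
    ((hBr i p hp (lt_of_le_of_lt (hBrle i) hlt)).1 β).trans (hc i)
  have hfib0 : ∀ p, p.Prime → B₁ < p → ∀ i,
      {x : ZMod p | ((jden (A i) (B i)).map (Int.castRingHom (ZMod p))).eval x = 0}.ncard ≤ c :=
    fun p hp hlt i => by
      have h1 := (hBr i p hp (lt_of_le_of_lt (hBrle i) hlt)).2
      have h2 := hc i
      omega
  have hex : ∀ p : ℕ, ∃ Bd : Set (Fin (n + N) → ZMod p), p.Prime → B₁ < p →
      Bd.ncard ≤ K * p ^ (n + N - 1) ∧ (n + N = 0 → Bd = ∅) ∧
        LocK n (n + N) p (E p) F Q S Bd := by
    intro p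
    by_cases h : p.Prime ∧ B₁ < p
    · obtain ⟨Bd, hBd⟩ := hloc p h.1 (by omega) (E p) (hcore p h.1 (by omega))
      exact ⟨Bd, fun _ _ => hBd⟩
    · exact ⟨∅, fun h1 h2 => absurd ⟨h1, h2⟩ h⟩
  choose Bd hBd using hex
  let EE : ∀ p : ℕ, Set (Fin (n + N) → ZMod p) := fun p =>
    EK n N p (fun i => jnum (A i)) (fun i => jden (A i) (B i)) (E p) (Bd p)
  have hEE := card_EK (n := n) (N := N) (K := K) (B₀ := B₁) (a := fun i => jnum (A i))
    (b := fun i => jden (A i) (B i)) E Bd hE hfib hfib0
    (fun p hp hlt => ⟨(hBd p hp hlt).1, (hBd p hp hlt).2.1⟩)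
  -- the main statement
  have hmain : ∀ p : ℕ, p.Prime → B₁ < p → ∀ (s : Fin n → ℤ) (δ : Fin N → ℤ) (t : ℕ), 0 < t →
      p ∣ t → red p (Fin.append s δ) ∉ EE p → Good V A B s δ t := by
    intro p p1' hpB s δ t ht p4 p6
    have : Fact p.Prime := ⟨p1'⟩
    have p6' : ¬ (red p (Fin.append s δ) ∈ Bd p ∨
        (fun i => red p (Fin.append s δ) (Fin.castAdd N i)) ∈
          {s : Fin n → ZMod p | ∃ W : Finset (Fin n), (fun i => s i + if i ∈ W then 1 else 0) ∈
            EF p (id : Fin n → Fin n) (fun i => jnum (A i)) (fun i => jden (A i) (B i)) (E p) ∅}) :=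
      p6
    rw [not_or] at p6'
    obtain ⟨p7, p8⟩ := p6'
    have hp3 : 3 < p := by omega
    intro lam hlam u hu hdisc P hP ρ hdep W hind
    obtain ⟨r, cls, hr, hc1, hc2⟩ := hdep
    obtain ⟨C', i1, i2, i3, i4, i5, φ₀, hpC, hCC, hL⟩ := (hBd p p1' hpB).2.2
    have key : n + W.card ≤ m + r := by
      refine ku_local (n := n) p1' hp3 φ₀ hpC hCC (F := F) (m := m) A B s t ht.ne' p4
        (fun W' => ?_) u (fun {ι} _ y' hy' a => ?_) P ?_ cls ?_ ?_ W hind
      · intro hbad
        apply p8
        refine ⟨W', ?_⟩
        have e : (fun i => red p (Fin.append s δ) (Fin.castAdd N i) +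
            if i ∈ W' then (1 : ZMod p) else 0) = fun i => ((shf s W' i : ℤ) : ZMod p) := by
          funext i
          show ((Fin.append s δ (Fin.castAdd N i) : ℤ) : ZMod p) + _ = _
          rw [Fin.append_left]
          unfold shf
          push_cast
          rfl
        rw [e]
        exact hbad
      · obtain ⟨Φ, g1, g2, g3, g4⟩ := hL (Fin.append s δ) p7 y' hy' a
        refine ⟨Φ, g1, g2, ?_⟩
        by_contra hcard
        rw [not_le] at hcard
        obtain ⟨J, hJ1, hJ2⟩ := Finset.exists_subset_card_eq (Nat.succ_le_of_lt hcard)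
        have hmem := hu J hJ2
        have key : ∃ i ∈ J, ‖Φ (u i)‖ ≤ 1 := by
          refine one_inf (M := 1) Φ J (V.expo J) (V.expo_eq_zero J)
            (MvPolynomial.aeval (fun i => (δ i : ℂ)) (V.lead J)) ?_
            (MvPolynomial.map (algebraMap F ℂ) (V.rest J)) ?_ ?_ δ (fun _ => t) lam
            (fun i => norm_le_one_of_isIntegral Φ (hlam i)) u ?_
          · have h1 := g4 (Ql J) (Finset.mem_image_of_mem _ (Finset.mem_univ J))
            have e1 : MvPolynomial.eval (fun i => ((Fin.append s δ i : ℤ) : ℂ)) (Ql J) =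
                MvPolynomial.aeval (fun i => (δ i : ℂ)) (V.lead J) := by
              show MvPolynomial.eval _ (MvPolynomial.map _ (MvPolynomial.rename _ _)) = _
              rw [MvPolynomial.eval_map, ← MvPolynomial.aeval_def, MvPolynomial.aeval_rename]
              have e0 : (fun i => ((Fin.append s δ i : ℤ) : ℂ)) ∘ Fin.natAdd n =
                  fun i => (δ i : ℂ) := by
                funext i
                show ((Fin.append s δ (Fin.natAdd n i) : ℤ) : ℂ) = _
                rw [Fin.append_right]
              rw [e0]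
            rw [e1] at h1
            exact h1
          · intro v hv
            rw [MvPolynomial.coeff_map]
            refine (g3 _ (Finset.mem_biUnion.2 ⟨J, Finset.mem_univ J,
              Finset.mem_image.2 ⟨v, ?_, rfl⟩⟩)).le
            exact MvPolynomial.support_map_subset _ _ hv
          · intro v hv
            exact V.lower J v (MvPolynomial.support_map_subset _ _ hv)
          · rw [MvPolynomial.eval_map, ← MvPolynomial.aeval_def]
            exact hmem
        obtain ⟨i, hi, hi'⟩ := key
        have := (Finset.mem_filter.1 (hJ1 hi)).2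
        exact absurd hi' (not_le.2 this)
      · intro i
        have h1 := hP i
        have e : xCoord (P i) = xx (P i) := by
          rcases P i with _ | ⟨x, y, h⟩
          · rfl
          · rfl
        rw [e] at h1
        exact h1
      · intro i hi
        exact hc1 i hi
      · intro i k hik hcls hnone
        obtain ⟨w, w', k₁, l₁, k₂, l₂, hdet, hrel, hw, hw'⟩ := hc2 i k hik hcls hnone
        refine ⟨w, w', !![k₁, l₁; k₂, l₂], ?_, ?_, ?_, ?_⟩
        · rw [Matrix.det_fin_two_of]
          exact hdet
        · unfold N135.ZO.Rel N135.ZO.den N135.ZO.num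
          simpa using hrel
        · unfold jnum jden
          simp only [map_add, map_mul, map_pow, Polynomial.aeval_C]
          have := hw
          unfold base at this
          simpa using this
        · unfold jnum jden
          simp only [map_add, map_mul, map_pow, Polynomial.aeval_C]
          have := hw'
          unfold base at this
          simpa using this
    omega
  refine ⟨⟨B₁, fun p => {ab | Fin.append ab.1 ab.2 ∈ EE p}, fun ε hε => ?_,
    fun p hp hlt s δ t ht hdvd hS => hmain p hp hlt s δ t ht hdvd fun h => hS ?_⟩, fun ε hε => ?_⟩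
  · obtain ⟨C, hC⟩ := hEE ε hε
    refine ⟨C, fun p hp hlt => ?_⟩
    have : NeZero p := ⟨hp.ne_zero⟩
    have h1 := hC p hp hlt
    refine le_trans ?_ h1
    refine Nat.cast_le.2 (Set.ncard_le_ncard_of_injOn (fun ab => Fin.append ab.1 ab.2)
      (fun ab hab => hab) ?_ (Set.toFinite _))
    rintro ⟨a, b⟩ - ⟨a', b'⟩ - hab
    have hab' : Fin.append a b = Fin.append a' b' := hab
    have e1 : a = a' := by
      funext i
      have := congrFun hab' (Fin.castAdd N i)
      rwa [Fin.append_left, Fin.append_left] at this
    have e2 : b = b' := by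
      funext i
      have := congrFun hab' (Fin.natAdd n i)
      rwa [Fin.append_right, Fin.append_right] at this
    rw [e1, e2]
  · show Fin.append (fun i => (s i : ZMod p)) (fun i => (δ i : ZMod p)) ∈ EE p
    have e : Fin.append (fun i => (s i : ZMod p)) (fun i => (δ i : ZMod p)) =
        red p (Fin.append s δ) := by
      funext i
      refine Fin.addCases (fun i => ?_) (fun i => ?_) i
      · rw [Fin.append_left]
        show _ = ((Fin.append s δ (Fin.castAdd N i) : ℤ) : ZMod p)
        rw [Fin.append_left]
      · rw [Fin.append_right]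
        show _ = ((Fin.append s δ (Fin.natAdd n i) : ℤ) : ZMod p)
        rw [Fin.append_right]
    rw [e]
    exact h
  · obtain ⟨C, hC⟩ := count_ps (n + N) B₁ EE (fun ε' hε' => by
      obtain ⟨C, hC⟩ := hEE ε' hε'
      refine ⟨C, fun p hp hlt => ?_⟩
      push_cast
      exact hC p hp hlt) ε hε
    refine ⟨C, fun H hH => ?_⟩
    obtain ⟨hfin, h1⟩ := hC H hH
    push_cast at h1
    refine le_trans (Nat.cast_le.2 (Set.ncard_le_ncard_of_injOn
      (fun a => (Fin.append a.1 a.2.1, a.2.2)) ?_ ?_ hfin)) h1
    · rintro ⟨s, δ, t⟩ ⟨h2, h3, h4, h5, h6⟩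
      refine ⟨fun i => ?_, h4, h5, fun p hp hlt hdvd => ?_⟩
      · refine Fin.addCases (fun i => ?_) (fun i => ?_) i
        · show |Fin.append s δ (Fin.castAdd N i)| ≤ (H : ℤ)
          rw [Fin.append_left]
          exact h2 i
        · show |Fin.append s δ (Fin.natAdd n i)| ≤ (H : ℤ)
          rw [Fin.append_right]
          exact h3 i
      · by_contra hno
        exact h6 (hmain p hp hlt s δ t h4 hdvd hno)
    · rintro ⟨s, δ, t⟩ - ⟨s', δ', t'⟩ - hab
      rw [Prod.mk.injEq] at hab
      obtain ⟨ha, hb⟩ := hab
      have ha' : Fin.append s δ = Fin.append s' δ' := ha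
      have hb' : t = t' := hb
      have e1 : s = s' := by
        funext i
        have := congrFun ha' (Fin.castAdd N i)
        rwa [Fin.append_left, Fin.append_left] at this
      have e2 : δ = δ' := by
        funext i
        have := congrFun ha' (Fin.natAdd n i)
        rwa [Fin.append_right, Fin.append_right] at this
      rw [e1, e2, hb']

end Pool.Agent.Results.MP_28d749_ag.IntegralCentres
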